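import Mathlib
import Pool.Agent.W312.WT.Stm

/-!
# Project WT: averaging over the rounding threshold
-/

set_option autoImplicit false

namespace Pool.Agent.W366.WT.SAvg

open MeasureTheory Set Pool.Agent.W312.WT

/-- the set of the thresholds for which the value is `b` -/
def T (φ : ℝ) (j : ℕ) : Set ℝ := if j % 2 = 0 then Iio φ else Ici (1 - φ)

theorem T_meas (φ : ℝ) (j : ℕ) : MeasurableSet (T φ j) := by
  unfold T
  split_ifs
  · exact measurableSet_Iio
  · exact measurableSet_Ici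

theorem rd_eq (θ φ : ℝ) (j : ℕ) (a b : ℝ) :
    rd θ φ j a b = a + (T φ j).indicator (fun _ => b - a) θ := by
  unfold rd T
  by_cases h1 : j % 2 = 0
  · rw [if_pos h1, if_pos h1]
    by_cases h2 : θ < φ
    · rw [if_pos h2, indicator_of_mem (mem_Iio.2 h2)]
      ring
    · rw [if_neg h2, indicator_of_notMem (fun h => h2 (mem_Iio.1 h)), add_zero]
  · rw [if_neg h1, if_neg h1]
    by_cases h2 : 1 - φ ≤ θ
    · rw [if_pos h2, indicator_of_mem (mem_Ici.2 h2)]
      ring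
    · rw [if_neg h2, indicator_of_notMem (fun h => h2 (mem_Ici.1 h)), add_zero]

theorem T_vol (φ : ℝ) (j : ℕ) (h0 : 0 ≤ φ) (h1 : φ ≤ 1) :
    (volume.restrict (Ico (0 : ℝ) 1)).real (T φ j) = φ := by
  rw [measureReal_restrict_apply (T_meas φ j)]
  unfold T
  by_cases h2 : j % 2 = 0
  · rw [if_pos h2]
    have h3 : Iio φ ∩ Ico (0 : ℝ) 1 = Ico 0 φ := by
      ext x
      simp only [mem_inter_iff, mem_Iio, mem_Ico]
      constructor
      · rintro ⟨h4, h5, h6⟩
        exact ⟨h5, h4⟩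
      · rintro ⟨h4, h5⟩
        exact ⟨h5, h4, by linarith⟩
    rw [h3, Real.volume_real_Ico_of_le h0, sub_zero]
  · rw [if_neg h2]
    have h3 : Ici (1 - φ) ∩ Ico (0 : ℝ) 1 = Ico (1 - φ) 1 := by
      ext x
      simp only [mem_inter_iff, mem_Ici, mem_Ico]
      constructor
      · rintro ⟨h4, h5, h6⟩
        exact ⟨h4, h6⟩
      · rintro ⟨h4, h5⟩
        exact ⟨h4, by linarith, h5⟩
    rw [h3, Real.volume_real_Ico_of_le (by linarith)]
    ring

theorem rd_int (φ : ℝ) (j : ℕ) (h0 : 0 ≤ φ) (h1 : φ ≤ 1) (a b : ℝ) :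
    IntegrableOn (fun θ => rd θ φ j a b) (Ico (0 : ℝ) 1) ∧
      ∫ θ in Ico (0 : ℝ) 1, rd θ φ j a b = (1 - φ) * a + φ * b := by
  have hc : ∀ c : ℝ, Integrable (fun _ : ℝ => c) (volume.restrict (Ico (0 : ℝ) 1)) := fun c =>
    integrable_const c
  have hi : Integrable ((T φ j).indicator fun _ : ℝ => b - a)
      (volume.restrict (Ico (0 : ℝ) 1)) := (hc (b - a)).indicator (T_meas φ j)
  simp only [rd_eq]
  refine ⟨(hc a).add hi, ?_⟩
  rw [integral_add (hc a) hi, integral_indicator_const _ (T_meas φ j), T_vol φ j h0 h1,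
    setIntegral_const, Real.volume_real_Ico_of_le (by norm_num)]
  simp only [smul_eq_mul]
  ring

theorem proof_SAvg : Pool.Agent.W312.WT.SAvg := by
  intro n A B φ hφ
  have hint : IntegrableOn
      (fun θ => ∑ j ∈ Finset.range n, rd θ (φ j) (j + 1) (A j) (B j)) (Ico (0 : ℝ) 1) :=
    integrable_finsetSum _ fun j _ => (rd_int (φ j) (j + 1) (hφ j).1 (hφ j).2 (A j) (B j)).1
  obtain ⟨θ, hθ, hle⟩ := exists_le_setAverage (μ := volume) (s := Ico (0 : ℝ) 1)
    (by rw [Real.volume_Ico]; simp) (by rw [Real.volume_Ico]; simp) hint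
  refine ⟨θ, hθ.1, hθ.2, hle.trans (le_of_eq ?_)⟩
  rw [setAverage_eq, Real.volume_real_Ico_of_le (by norm_num), sub_zero, inv_one, one_smul,
    integral_finsetSum _ fun j _ => (rd_int (φ j) (j + 1) (hφ j).1 (hφ j).2 (A j) (B j)).1]
  exact Finset.sum_congr rfl fun j _ =>
    (rd_int (φ j) (j + 1) (hφ j).1 (hφ j).2 (A j) (B j)).2

end Pool.Agent.W366.WT.SAvg
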